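import Mathlib
import Pool.Agent.H16.Pseudo

set_option autoImplicit false

namespace Pool.Agent.Results.MP_7589f8_co.No

open H16.Pseudo

theorem result : ∃ G : SimpleGraph (Fin 70), MaxPlanar G ∧ ∀ D, IsOrientation G D →
    ∃ v, 2 ≤ {w | D v w}.ncard ∧ 2 ≤ {w | D w v}.ncard :=
  H16.Pseudo.main

end Pool.Agent.Results.MP_7589f8_co.No
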